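import Pool.Agent.H24.SCG2.Base3

/-!
# SCG2, module EXSZ: orders, first and second intersection condition modulo scalars
-/

set_option autoImplicit false

namespace Pool.Agent.H33.SCG2

open Pool.SCG Matrix

/-- An inner element which commutes with an inner element up to a scalar. -/
theorem inner_zs {F : Type} [Field F] {x y z : Cor F} {A B : M3 F} {ζ : F} (hx : Is x false A)
    (hy : Is y false B) (hz : Is z false (dg ζ ζ ζ)) (h : x * y = z * (y * x)) (i j : Fin 3) :
    (A * B) i j = ζ * (B * A) i j := by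
  have h1 := hx.mul_inner hy
  have h2 := hz.mul_inner (hy.mul_inner hx)
  rw [h] at h1
  have h3 := (h1.uniq h2).2
  rw [h3, dg_smul, Matrix.smul_mul, one_mul, Matrix.smul_apply, smul_eq_mul]

/-- An inner element which commutes with an outer element up to a scalar. -/
theorem outer_zs {F : Type} [Field F] {x y z : Cor F} {A B : M3 F} {ζ : F} (hζ : ζ ^ 3 = 1)
    (hx : Is x false A) (hy : Is y true B) (hz : Is z false (dg ζ ζ ζ))
    (h : x * y = z * (y * x)) (i j : Fin 3) :
    B i j = ζ ^ 2 * (A.transpose * B * A) i j := by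
  have h1 : Is (x * y) true ((adjugate A).transpose * B) := hx.mul_outer hy
  have h2 : Is (y * x) true (B * A) := hy.mul_inner hx
  have h3 := hz.mul_outer' h2 (A' := dg (ζ ^ 2) (ζ ^ 2) (ζ ^ 2)) (by
    rw [dg_mul]
    have e : ζ * ζ ^ 2 = 1 := by rw [← hζ]; ring
    rw [e, dg_one])
  rw [h] at h1
  have h4 : (adjugate A).transpose * B =
      (dg (ζ ^ 2) (ζ ^ 2) (ζ ^ 2)).transpose * (B * A) := (h1.uniq h3).2
  rw [dg_transpose, dg_smul, Matrix.smul_mul, one_mul] at h4
  have e : A.transpose * (adjugate A).transpose = 1 := by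
    rw [← Matrix.transpose_mul, adj_mul_self hx.det, Matrix.transpose_one]
  have h5 : B = ζ ^ 2 • (A.transpose * B * A) := by
    calc B = A.transpose * ((adjugate A).transpose * B) := by rw [← mul_assoc, e, one_mul]
      _ = ζ ^ 2 • (A.transpose * B * A) := by
        rw [h4, Matrix.mul_smul]
        simp only [mul_assoc]
  conv_lhs => rw [h5]
  rw [Matrix.smul_apply, smul_eq_mul]

theorem exsz_thm : EXSZStmt := by
  intro F _ τ h2 h3 hτ hτ1 a b c d hG
  obtain ⟨ha, hb, hc, hd⟩ := hG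
  have hbc : Is (b * c) false !![0, 0, 1; τ, 0, 0; 0, τ⁻¹, 0] := by
    have h := hb.mul_inner hc
    have e : !![(0 : F), 0, -1; 0, -1, 0; -1, 0, 0] * !![0, -τ⁻¹, 0; -τ, 0, 0; 0, 0, -1] =
        !![0, 0, 1; τ, 0, 0; 0, τ⁻¹, 0] := by
      ext i j
      fin_cases i <;> fin_cases j <;> simp [Matrix.mul_apply, Fin.sum_univ_three]
    rwa [e] at h
  have hbc2 : Is ((b * c) ^ 2) false !![0, τ⁻¹, 0; 0, 0, τ; 1, 0, 0] := by
    have h := hbc.mul_inner hbc
    have e : !![(0 : F), 0, 1; τ, 0, 0; 0, τ⁻¹, 0] * !![0, 0, 1; τ, 0, 0; 0, τ⁻¹, 0] =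
        !![0, τ⁻¹, 0; 0, 0, τ; 1, 0, 0] := by
      ext i j
      fin_cases i <;> fin_cases j <;> simp [Matrix.mul_apply, Fin.sum_univ_three, hτ]
    rw [e] at h
    rwa [pow_two]
  have hbc3 : Is ((b * c) ^ 3) false (1 : M3 F) := by
    have h := hbc2.mul_inner hbc
    have e : !![(0 : F), τ⁻¹, 0; 0, 0, τ; 1, 0, 0] * !![0, 0, 1; τ, 0, 0; 0, τ⁻¹, 0] = 1 := by
      ext i j
      fin_cases i <;> fin_cases j <;> simp [Matrix.mul_apply, Fin.sum_univ_three, hτ]
    rw [e] at h
    rwa [pow_succ]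
  have hc0 : (2 : F) * (3 : F)⁻¹ ≠ 0 := mul_ne_zero h2 (inv_ne_zero h3)
  have hz0 : ∀ ζ : F, ζ ^ 3 = 1 → ζ ≠ 0 := by
    rintro ζ hζ rfl
    norm_num at hζ
  refine ⟨hbc3.ext is_one, ?_, ?_, ?_, ?_, ?_, ?_, ?_, ?_, ?_⟩
  · rintro k (rfl | rfl) z ⟨ζ, hζ, hz⟩ h
    · rw [pow_one] at h
      have e1 := inner_zs hbc hd hz h 0 0
      have e2 := inner_zs hbc hd hz h 0 1
      simp [Matrix.mul_apply, Fin.sum_univ_three] at e1 e2
      apply hτ1
      have f1 : ζ * τ = 1 := by
        apply mul_left_cancel₀ hc0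
        linear_combination -e1
      have f2 : ζ * τ⁻¹ = 1 := by
        apply mul_left_cancel₀ hc0
        linear_combination -e2
      have f3 : ζ = τ := by
        have : ζ = ζ * τ⁻¹ * τ := by rw [mul_assoc, inv_mul_cancel₀ hτ, mul_one]
        rw [this, f2, one_mul]
      rw [f3] at f1
      rw [pow_two, f1]
    · have e1 := inner_zs hbc2 hd hz h 0 0
      have e2 := inner_zs hbc2 hd hz h 0 2
      simp [Matrix.mul_apply, Fin.sum_univ_three] at e1 e2
      have f1 : τ⁻¹ = ζ := by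
        rcases e1 with e1 | e1 | e1
        · exact e1
        · exact absurd e1 h2
        · exact absurd e1 h3
      have f2 : τ⁻¹ = ζ * τ := by
        apply mul_left_cancel₀ hc0
        linear_combination e2
      apply hτ1
      rw [← f1, inv_mul_cancel₀ hτ] at f2
      have f4 : τ = 1 := inv_eq_one.1 f2
      rw [f4, one_pow]
  · rintro k (rfl | rfl) z ⟨ζ, hζ, hz⟩ h
    · rw [pow_one] at h
      have e1 := outer_zs hζ hbc ha hz h 0 1
      simp [Matrix.mul_apply, Fin.sum_univ_three] at e1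
    · have e1 := outer_zs hζ hbc2 ha hz h 0 1
      simp [Matrix.mul_apply, Fin.sum_univ_three] at e1
  · rintro ⟨ζ, hζ, hz⟩
    exact (hz.ne_of_sign ha) rfl
  · rintro ⟨ζ, hζ, hz⟩
    have e := congrFun (congrFun (hz.uniq hb).2 0) 0
    simp [dg] at e
    exact hz0 ζ hζ e
  · rintro ⟨ζ, hζ, hz⟩
    have e := congrFun (congrFun (hz.uniq hc).2 0) 0
    simp [dg] at e
    exact hz0 ζ hζ e
  · rintro ⟨ζ, hζ, hz⟩
    have e := congrFun (congrFun (hz.uniq hd).2 0) 1
    simp [dg] at e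
    rcases e with e | e
    · exact h2 e
    · exact h3 e
  · rintro z ⟨ζ, hζ, hz⟩ h
    have e := hz.mul_inner hb
    rw [← h] at e
    exact (e.ne_of_sign ha) rfl
  · rintro z ⟨ζ, hζ, hz⟩ h
    have e := hz.mul_inner hc
    rw [← h] at e
    have e1 := congrFun (congrFun (hb.uniq e).2 0) 2
    simp [dg, Matrix.mul_apply, Fin.sum_univ_three] at e1
  · rintro z ⟨ζ, hζ, hz⟩ h
    have e := hz.mul_inner hd
    rw [← h] at e
    have e1 := congrFun (congrFun (hc.uniq e).2 0) 2
    simp [dg, Matrix.mul_apply, Fin.sum_univ_three] at e1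
    rcases e1 with e1 | e1 | e1
    · exact hz0 ζ hζ e1
    · exact h2 e1
    · exact h3 e1

end Pool.Agent.H33.SCG2
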