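import Pool.Agent.H24.SCG2.Base2

/-!
# SCG2, module R6: rank six is impossible
-/

set_option autoImplicit false

namespace Pool.Agent.H33.SCG2

open Pool.SCG

theorem r6_thm (hRELZ : RELZStmt) (hS5Z : S5ZStmt) (hU5Z : U5ZStmt) : R6Stmt := by
  intro F K _ _ _ _ _ hF hK hcube a b c d e f h1 h2 ha hb hc hd he hf
  obtain ⟨a', b', c', d', e', ra, rb, rc, rd, re, hZ⟩ :=
    hS5Z F K hF hK hcube a b c d e h1 ha hb hc hd he
  obtain ⟨b'', c'', d'', e'', f'', rb', rc', rd', re', rf', hZ'⟩ :=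
    hS5Z F K hF hK hcube b c d e f h2 hb hc hd he hf
  obtain ⟨zb, hzb, hb2⟩ := rel_left hRELZ rb rb'
  obtain ⟨zc, hzc, hc2⟩ := rel_left hRELZ rc rc'
  obtain ⟨zd, hzd, hd2⟩ := rel_left hRELZ rd rd'
  obtain ⟨ze, hze, he2⟩ := rel_left hRELZ re re'
  have hs : ∀ {x z y : Cor K}, z ∈ Zs K → y = x * z → y.s = x.s := by
    intro x z y hz hy
    rw [hy, Cor.mul_s, zs_s hz, Bool.xor_false]
  have sb := hs hzb hb2
  have sc := hs hzc hc2
  have sd := hs hzd hd2
  have se := hs hze he2
  rcases hU5Z K hK a' b' c' d' e' hZ with t1 | t1 <;>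
    rcases hU5Z K hK b'' c'' d'' e'' f'' hZ' with t2 | t2
  · have h3 := t1.se
    have h4 := t2.scd
    have h5 := t1.scd
    have h6 := t2.sb
    rw [sd, se] at h4
    rw [sc] at h6
    rw [h6, h4, h3] at h5
    exact absurd h5 (by decide)
  · have h3 := t1.sb
    have h4 := t2.se
    rw [sb, h3] at h4
    exact absurd h4 (by decide)
  · have h3 := t1.cd3
    have hcs : c'.s = true := by
      have := t2.sb
      rwa [sc] at this
    have hbs : b'.s = true := by
      have := t2.sa
      rwa [sb] at this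
    have hds : d''.s = true := by
      rw [sd]
      exact t1.sb
    apply t2.ab3 hds
    have hzz : zb⁻¹ * zc ∈ Zs K := zs_mul (zs_inv hzb) hzc
    have hin : (b' * c').s = false := by
      rw [Cor.mul_s, hbs, hcs]
      rfl
    have h4 : b'' * c'' = (b' * c') * (zb⁻¹ * zc) := by
      rw [hb2, hc2]
      have h5 := zs_outer hzb hcs
      calc b' * zb * (c' * zc) = b' * (zb * c') * zc := by group
        _ = b' * (c' * zb⁻¹) * zc := by rw [h5]
        _ = (b' * c') * (zb⁻¹ * zc) := by group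
    have h6 : Commute (b' * c') (zb⁻¹ * zc) := (zs_comm hzz hin).symm
    rw [h4, h6.mul_pow, zs_cube hzz, mul_one]
    have h7 : (b' * c') ^ 3 = b' * (c' * b') ^ 3 * b'⁻¹ := by
      simp only [pow_succ, pow_zero, one_mul]
      group
    rw [h7, h3, mul_one, mul_inv_cancel]
  · have h3 := t2.se
    have h4 := t1.sb
    have h5 := t2.scd
    have h6 := t1.scd
    rw [sd, sc] at h5
    rw [sb] at h3
    rw [← h5, h4, h3] at h6
    exact absurd h6 (by decide)

end Pool.Agent.H33.SCG2
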