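import Pool.Agent.H24.SCG2.Base3

/-!
# SCG2, module TRV: elementary transvections in some basis
-/

set_option autoImplicit false

namespace Pool.Agent.H33.SCG2

open Pool.SCG Matrix

theorem trv_thm (hGENT : GENTStmt) : TRVStmt := by
  intro F _ H P h
  have hK : (H.comap (MulAut.conj : SL3 F →* _)).comap (diagAut P).toMonoidHom = ⊤ := by
    apply hGENT F
    intro i j hij t
    obtain ⟨g, hg, hgH⟩ := h i j hij t
    have h1 : (diagAut P).toMonoidHom
        (⟨transvection i j t, det_transvection_of_ne i j hij t⟩ : SL3 F) = g := by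
      apply Subtype.ext
      rw [hg]
      exact diagAut_coe P _
    have h2 : MulAut.conj ((diagAut P).toMonoidHom
        (⟨transvection i j t, det_transvection_of_ne i j hij t⟩ : SL3 F)) ∈ H := by
      rw [h1]
      exact hgH
    exact h2
  rintro _ ⟨m, rfl⟩
  have h2 : (diagAut P)⁻¹ m ∈
      (H.comap (MulAut.conj : SL3 F →* _)).comap (diagAut P).toMonoidHom := by
    rw [hK]
    exact Subgroup.mem_top _
  rw [Subgroup.mem_comap, Subgroup.mem_comap] at h2
  have h3 : (diagAut P).toMonoidHom ((diagAut P)⁻¹ m) = m :=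
    MulAut.apply_inv_self _ (diagAut P) m
  rwa [h3] at h2

end Pool.Agent.H33.SCG2
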