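import Pool.Agent.H24.SCG2.Stmts2

/-!
# SCG2, module EXT: a finite extension in which all elements are cubes
-/

set_option autoImplicit false

namespace Pool.Agent.H33.SCG2

open Pool.SCG

theorem isSquare_cube (q : ℕ) (hq : q ≠ 0) (h : IsSquare (q ^ 3)) : IsSquare q := by
  obtain ⟨r, hr⟩ := h
  have h1 : q ^ 2 ∣ r ^ 2 := ⟨q, by rw [← pow_succ, hr, pow_two]⟩
  obtain ⟨s, rfl⟩ := (Nat.pow_dvd_pow_iff two_ne_zero).1 h1
  refine ⟨s, ?_⟩
  have h2 : q ^ 2 * q = q ^ 2 * (s * s) := by
    rw [← pow_succ, hr]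
    ring
  exact Nat.eq_of_mul_eq_mul_left (Nat.pos_of_ne_zero (pow_ne_zero 2 hq)) h2

/-- In a cyclic group of order `3 (q - 1) m` the elements killed by `q - 1` are cubes. -/
theorem cube_of_pow {G : Type*} [CommGroup G] [IsCyclic G] [Finite G] (a m : ℕ) (ha : 0 < a)
    (hc : Nat.card G = 3 * m * a) (u : G) (hu : u ^ a = 1) : ∃ v : G, v ^ 3 = u := by
  obtain ⟨g, hg⟩ := IsCyclic.exists_generator (α := G)
  have ho : orderOf g = Nat.card G := orderOf_eq_card_of_forall_mem_zpowers hg
  obtain ⟨k, rfl⟩ := Subgroup.mem_zpowers_iff.1 (hg u)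
  have h1 : ((3 * m * a : ℕ) : ℤ) ∣ k * a := by
    rw [← hc, ← ho, orderOf_dvd_iff_zpow_eq_one, zpow_mul, zpow_natCast]
    exact hu
  have h2 : (3 : ℤ) ∣ k := by
    obtain ⟨c, hc'⟩ := h1
    refine ⟨m * c, ?_⟩
    have h3 : (a : ℤ) ≠ 0 := by exact_mod_cast ha.ne'
    have h4 : k * a = 3 * (m * c) * a := by
      rw [hc']
      push_cast
      ring
    exact mul_right_cancel₀ h3 h4
  obtain ⟨j, rfl⟩ := h2
  refine ⟨g ^ j, ?_⟩
  rw [mul_comm, zpow_mul]
  norm_cast

theorem ext_thm : EXTStmt := by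
  intro F _ _ ⟨h6, hsq⟩
  obtain ⟨p, hp⟩ := CharP.exists F
  have hpp : p.Prime := (CharP.char_is_prime_or_zero F p).resolve_right (by
    rintro rfl
    have := CharP.charP_to_charZero F
    exact (Infinite.of_injective (Nat.cast : ℕ → F) Nat.cast_injective).not_finite inferInstance)
  have : Fact p.Prime := ⟨hpp⟩
  have hcard : Nat.card (FiniteField.Extension F p 3) = Nat.card F ^ 3 :=
    FiniteField.natCard_extension F p 3
  have hq0 : Nat.card F ≠ 0 := Nat.card_pos.ne'
  have hK : Finite (FiniteField.Extension F p 3) :=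
    Nat.finite_of_card_ne_zero (by rw [hcard]; exact pow_ne_zero _ hq0)
  refine ⟨FiniteField.Extension F p 3, inferInstance, hK, inferInstance, ⟨?_, ?_⟩, ?_⟩
  · rw [hcard, Nat.pow_mod, h6]
  · rw [hcard]
    exact fun h => hsq (isSquare_cube _ hq0 h)
  · intro x
    by_cases hx : x = 0
    · refine ⟨0, ?_⟩
      rw [hx, map_zero]
      norm_num
    · have hx' : algebraMap F (FiniteField.Extension F p 3) x ≠ 0 := by
        rw [Ne, map_eq_zero]
        exact hx
      have hq1 : 1 < Nat.card F := Finite.one_lt_card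
      obtain ⟨q, hq⟩ : ∃ q, Nat.card F = 6 * q + 1 := ⟨Nat.card F / 6, by omega⟩
      have hcu : Nat.card (FiniteField.Extension F p 3)ˣ =
          3 * (12 * q ^ 2 + 6 * q + 1) * (6 * q) := by
        rw [Nat.card_units, hcard, hq]
        have : (6 * q + 1) ^ 3 = 3 * (12 * q ^ 2 + 6 * q + 1) * (6 * q) + 1 := by ring
        rw [this, Nat.add_sub_cancel]
      obtain ⟨v, hv⟩ := cube_of_pow (6 * q) (12 * q ^ 2 + 6 * q + 1) (by omega) hcu
        (Units.mk0 _ hx') (by
          apply Units.ext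
          rw [Units.val_pow_eq_pow_val, Units.val_mk0, Units.val_one, ← map_pow]
          have h7 : x ^ (6 * q) = 1 := by
            have h8 := Fintype.ofFinite F
            have h9 : Fintype.card F - 1 = 6 * q := by
              rw [← Nat.card_eq_fintype_card, hq]
              rfl
            rw [← h9]
            exact FiniteField.pow_card_sub_one_eq_one x hx
          rw [h7, map_one])
      refine ⟨v, ?_⟩
      have := congrArg Units.val hv
      rwa [Units.val_pow_eq_pow_val, Units.val_mk0] at this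

end Pool.Agent.H33.SCG2
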